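import Mathlib

set_option autoImplicit false

/-!
# MP_3da004_co, Q1: three planar measures which no square bisects simultaneously

Take a finite measure with an everywhere positive even density and its image under `x ↦ 2 x`. A
bounded convex set containing half of the first contains the origin in its interior, and then it
contains strictly less than half of the second one. So no bounded convex set, in particular no
square, contains exactly half of both.
-/

namespace Pool.Agent.Results.MP_3da004_co.NoHalvingSquare

open MeasureTheory Set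

/-- The Euclidean plane. -/
abbrev Plane : Type := EuclideanSpace ℝ (Fin 2)

/-- A square: the image of `[0,s] × [0,s]`, `s > 0`, under an isometry of the plane. -/
def IsSquare (Q : Set Plane) : Prop :=
  ∃ s : ℝ, 0 < s ∧ ∃ φ : Plane ≃ᵢ Plane, Q = φ '' {x | ∀ i, 0 ≤ x i ∧ x i ≤ s}

theorem union_null (m : Measure Plane) {s t : Set Plane} (h : m t = 0) : m (s ∪ t) = m s :=
  le_antisymm ((measure_union_le s t).trans (by rw [h, add_zero])) (measure_mono subset_union_left)

/-- the density -/
noncomputable def dens (x : Plane) : ENNReal := ENNReal.ofReal ((1 + ‖x‖) ^ (-(3 : ℝ)))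

/-- the first measure -/
noncomputable def mu : Measure Plane := volume.withDensity dens

theorem dens_meas : Measurable dens := by
  unfold dens
  fun_prop

theorem dens_pos (x : Plane) : 0 < dens x := by
  unfold dens
  rw [ENNReal.ofReal_pos]
  have : 0 < 1 + ‖x‖ := by positivity
  positivity

theorem mu_finite : IsFiniteMeasure mu := by
  refine isFiniteMeasure_withDensity ?_
  have h := finite_integral_one_add_norm (E := Plane) (μ := volume) (r := 3) (by
    rw [finrank_euclideanSpace_fin]; norm_num)
  exact h.ne

theorem mu_ac : mu ≪ volume := withDensity_absolutelyContinuous _ _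

theorem ac_mu : volume ≪ mu :=
  withDensity_absolutelyContinuous' dens_meas.aemeasurable
    (Filter.Eventually.of_forall fun x => (dens_pos x).ne')

theorem mu_neg (A : Set Plane) (hA : MeasurableSet A) : mu (Neg.neg ⁻¹' A) = mu A := by
  unfold mu
  rw [withDensity_apply _ (measurable_neg hA), withDensity_apply _ hA]
  have h := (Measure.measurePreserving_neg (volume : Measure Plane)).setLIntegral_comp_preimage hA
    dens_meas
  rw [← h]
  refine lintegral_congr fun x => ?_
  unfold dens
  rw [norm_neg]

theorem mu_univ_pos : 0 < mu univ := by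
  rw [pos_iff_ne_zero]
  intro h
  have := ac_mu h
  have h2 : (0 : ENNReal) < volume (univ : Set Plane) := isOpen_univ.measure_pos _ univ_nonempty
  rw [this] at h2
  exact lt_irrefl _ h2

/-- a bounded set in a closed half-plane bounded by a line through the origin has less than half of
the measure -/
theorem half_lt (T : Set Plane) (hb : Bornology.IsBounded T) (f : Plane →L[ℝ] ℝ) (hf : f ≠ 0)
    (hT : ∀ x ∈ T, f x ≤ 0) : 2 * mu T < mu univ := by
  have := mu_finite
  obtain ⟨v, hv⟩ : ∃ v, f v < 0 := by
    by_contra hcon
    push Not at hcon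
    apply hf
    ext x
    have h1 := hcon x
    have h2 := hcon (-x)
    rw [map_neg] at h2
    show f x = 0
    linarith
  have hA : MeasurableSet {x | f x < 0} := (isOpen_lt f.continuous continuous_const).measurableSet
  have hB : MeasurableSet {x | 0 < f x} := (isOpen_lt continuous_const f.continuous).measurableSet
  have hN : mu {x | f x = 0} = 0 := by
    apply mu_ac
    have := Measure.addHaar_submodule (volume : Measure Plane) (LinearMap.ker f.toLinearMap) (by
      intro htop
      have : v ∈ LinearMap.ker f.toLinearMap := by rw [htop]; trivial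
      rw [LinearMap.mem_ker] at this
      have h3 : f v = 0 := this
      linarith)
    exact this
  have hsymm : mu {x | 0 < f x} = mu {x | f x < 0} := by
    rw [← mu_neg _ hA]
    congr 1
    ext x
    simp
  have htot : mu univ = 2 * mu {x | f x < 0} := by
    have h1 : (univ : Set Plane) = ({x | f x < 0} ∪ {x | 0 < f x}) ∪ {x | f x = 0} := by
      ext x
      simp only [mem_univ, mem_union, mem_ofPred_eq, true_iff]
      rcases lt_trichotomy (f x) 0 with h | h | h
      · exact Or.inl (Or.inl h)
      · exact Or.inr h
      · exact Or.inl (Or.inr h)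
    have h2 : mu (({x | f x < 0} ∪ {x | 0 < f x}) ∪ {x | f x = 0}) =
        mu ({x | f x < 0} ∪ {x | 0 < f x}) := union_null mu hN
    rw [h1, h2, measure_union ?_ hB, hsymm, two_mul]
    rw [Set.disjoint_left]
    intro x h1 h2
    exact lt_asymm (show f x < 0 from h1) (show 0 < f x from h2)
  -- the part of the open half-plane outside a large ball
  obtain ⟨r, hr⟩ := hb.subset_closedBall (0 : Plane)
  have hopen : IsOpen ({x | f x < 0} ∩ (Metric.closedBall (0 : Plane) r)ᶜ) :=
    (isOpen_lt f.continuous continuous_const).inter Metric.isClosed_closedBall.isOpen_compl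
  have hne : ({x | f x < 0} ∩ (Metric.closedBall (0 : Plane) r)ᶜ).Nonempty := by
    have hv0 : 0 < ‖v‖ := norm_pos_iff.mpr (by rintro rfl; simp at hv)
    refine ⟨((|r| + 1) / ‖v‖) • v, ?_, ?_⟩
    · show f (((|r| + 1) / ‖v‖) • v) < 0
      rw [map_smul, smul_eq_mul]
      exact mul_neg_of_pos_of_neg (by positivity) hv
    · rw [mem_compl_iff, Metric.mem_closedBall, dist_zero_right, norm_smul,
        Real.norm_of_nonneg (by positivity), div_mul_cancel₀ _ hv0.ne']
      have := le_abs_self r
      linarith
  have hpos : 0 < mu ({x | f x < 0} ∩ (Metric.closedBall (0 : Plane) r)ᶜ) := by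
    rw [pos_iff_ne_zero]
    intro h
    have h1 := ac_mu h
    have h2 := hopen.measure_pos volume hne
    rw [h1] at h2
    exact lt_irrefl _ h2
  have hTle : mu T ≤ mu ({x | f x < 0} ∩ Metric.closedBall (0 : Plane) r) := by
    calc mu T ≤ mu (({x | f x < 0} ∩ Metric.closedBall (0 : Plane) r) ∪ {x | f x = 0}) := by
          refine measure_mono ?_
          intro x hx
          rcases lt_or_eq_of_le (hT x hx) with h | h
          · exact Or.inl ⟨h, hr hx⟩
          · exact Or.inr h
      _ = _ := union_null mu hN
  have hsplit : mu {x | f x < 0} = mu ({x | f x < 0} ∩ Metric.closedBall (0 : Plane) r) +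
      mu ({x | f x < 0} ∩ (Metric.closedBall (0 : Plane) r)ᶜ) := by
    rw [← measure_inter_add_sdiff _ (Metric.isClosed_closedBall (x := (0 : Plane))
      (ε := r)).measurableSet]
    rfl
  have hlt : mu T < mu {x | f x < 0} := by
    rw [hsplit]
    refine lt_of_le_of_lt hTle ?_
    exact ENNReal.lt_add_right (measure_ne_top _ _) hpos.ne'
  rw [htot]
  exact (ENNReal.mul_lt_mul_iff_right (by norm_num) (by norm_num)).mpr hlt

/-- the second measure: the image of `mu` under `x ↦ 2 x` -/
noncomputable def nu : Measure Plane := mu.map (fun x => (2 : ℝ) • x)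

theorem meas_two : Measurable (fun x : Plane => (2 : ℝ) • x) := measurable_const_smul _

/-- the homothety as a homeomorphism -/
noncomputable def two : Plane ≃ₜ Plane := Homeomorph.smulOfNeZero (2 : ℝ) (by norm_num)

theorem nu_apply (T : Set Plane) : nu T = mu ((fun x => (2 : ℝ) • x) ⁻¹' T) := by
  have : nu = mu.map two.toMeasurableEquiv := rfl
  rw [this, MeasurableEquiv.map_apply]
  rfl

theorem nu_ac : nu ≪ volume := by
  intro s hs
  rw [nu_apply]
  apply mu_ac
  have h := Measure.addHaar_preimage_smul (volume : Measure Plane) (r := (2 : ℝ)) (by norm_num) s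
  rw [h, hs, mul_zero]

theorem nu_univ : nu univ = mu univ := by
  rw [nu_apply, preimage_univ]

theorem no_convex (T : Set Plane) (hc : Convex ℝ T) (hb : Bornology.IsBounded T) :
    ¬ (mu T = mu univ / 2 ∧ nu T = nu univ / 2) := by
  have := mu_finite
  rintro ⟨h1, h2⟩
  have huniv := mu_univ_pos
  have htop : mu univ ≠ ⊤ := measure_ne_top _ _
  have hTtwo : 2 * mu T = mu univ := by
    rw [h1]
    exact ENNReal.mul_div_cancel (by norm_num) (by norm_num)
  by_cases h0 : (0 : Plane) ∈ interior T
  · -- the origin is interior
    have hT' : (fun x : Plane => (2 : ℝ) • x) ⁻¹' T ⊆ T := by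
      intro x hx
      have h3 : (0 : Plane) ∈ T := interior_subset h0
      have h4 := hc h3 hx (a := 1 / 2) (b := 1 / 2) (by norm_num) (by norm_num) (by norm_num)
      simpa [smul_smul] using h4
    have hT'conv : Convex ℝ ((fun x : Plane => (2 : ℝ) • x) ⁻¹' T) := by
      have := hc.linear_preimage ((2 : ℝ) • (LinearMap.id : Plane →ₗ[ℝ] Plane))
      exact this
    have hmeas : NullMeasurableSet ((fun x : Plane => (2 : ℝ) • x) ⁻¹' T) mu :=
      (hT'conv.nullMeasurableSet volume).mono_ac mu_ac
    have hvolpos : 0 < volume T :=
      lt_of_lt_of_le (isOpen_interior.measure_pos volume ⟨0, h0⟩) (measure_mono interior_subset)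
    have hvoltop : volume T ≠ ⊤ := hb.measure_lt_top.ne
    have hvol' : volume ((fun x : Plane => (2 : ℝ) • x) ⁻¹' T) < volume T := by
      have h := Measure.addHaar_preimage_smul (volume : Measure Plane) (r := (2 : ℝ))
        (by norm_num) T
      rw [h, finrank_euclideanSpace_fin]
      calc ENNReal.ofReal |((2 : ℝ) ^ 2)⁻¹| * volume T
          < 1 * volume T := by
            refine (ENNReal.mul_lt_mul_iff_left hvolpos.ne' hvoltop).mpr ?_
            rw [show |((2 : ℝ) ^ 2)⁻¹| = 1 / 4 by norm_num]
            rw [← ENNReal.ofReal_one]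
            exact (ENNReal.ofReal_lt_ofReal_iff (by norm_num)).mpr (by norm_num)
        _ = volume T := one_mul _
    have hdiffpos : 0 < volume (T \ ((fun x : Plane => (2 : ℝ) • x) ⁻¹' T)) := by
      rw [pos_iff_ne_zero]
      intro hz
      have : volume T ≤ volume ((fun x : Plane => (2 : ℝ) • x) ⁻¹' T) := by
        calc volume T ≤ volume ((fun x : Plane => (2 : ℝ) • x) ⁻¹' T ∪
              (T \ ((fun x : Plane => (2 : ℝ) • x) ⁻¹' T))) :=
              measure_mono (fun x hx => by
                by_cases hx' : x ∈ (fun x : Plane => (2 : ℝ) • x) ⁻¹' T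
                · exact Or.inl hx'
                · exact Or.inr ⟨hx, hx'⟩)
          _ = _ := union_null volume hz
      exact absurd hvol' (not_lt.mpr this)
    have hmudiff : 0 < mu (T \ ((fun x : Plane => (2 : ℝ) • x) ⁻¹' T)) := by
      rw [pos_iff_ne_zero]
      intro hz
      have := ac_mu hz
      rw [this] at hdiffpos
      exact lt_irrefl _ hdiffpos
    have hsplit := measure_inter_add_sdiff₀ (μ := mu) T hmeas
    rw [inter_eq_right.mpr hT'] at hsplit
    have hlt : mu ((fun x : Plane => (2 : ℝ) • x) ⁻¹' T) < mu T := by
      rw [← hsplit]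
      exact ENNReal.lt_add_right (measure_ne_top _ _) hmudiff.ne'
    rw [nu_apply, nu_univ, ← h1] at h2
    exact absurd hlt (by rw [h2]; exact lt_irrefl _)
  · -- the origin is not interior
    by_cases hne : (interior T).Nonempty
    · obtain ⟨f, hf⟩ := geometric_hahn_banach_open_point hc.interior isOpen_interior h0
      have hf0 : f ≠ 0 := by
        rintro rfl
        obtain ⟨x, hx⟩ := hne
        have := hf x hx
        simp at this
      have hT : ∀ x ∈ T, f x ≤ 0 := by
        intro x hx
        have h3 : x ∈ closure (interior T) := by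
          rw [hc.closure_interior_eq_closure_of_nonempty_interior hne]
          exact subset_closure hx
        have h4 : closure (interior T) ⊆ {x | f x ≤ 0} := by
          refine closure_minimal ?_ (isClosed_le f.continuous continuous_const)
          intro y hy
          have := hf y hy
          rw [map_zero] at this
          exact this.le
        exact h4 h3
      have := half_lt T hb f hf0 hT
      rw [hTtwo] at this
      exact lt_irrefl _ this
    · rw [Set.not_nonempty_iff_eq_empty] at hne
      have h3 : volume T = 0 := by
        have hfr := hc.addHaar_frontier (volume : Measure Plane)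
        refine measure_mono_null ?_ hfr
        rw [frontier, hne, sdiff_empty]
        exact subset_closure
      have h4 := mu_ac h3
      rw [h4, mul_zero] at hTtwo
      rw [← hTtwo] at huniv
      exact lt_irrefl _ huniv

theorem square_convex_bounded {Q : Set Plane} (hQ : IsSquare Q) :
    Convex ℝ Q ∧ Bornology.IsBounded Q := by
  obtain ⟨s, hs, φ, rfl⟩ := hQ
  have hconv : Convex ℝ {x : Plane | ∀ i, 0 ≤ x i ∧ x i ≤ s} := by
    intro x hx y hy a b ha hb hab i
    obtain ⟨h1, h2⟩ := hx i
    obtain ⟨h3, h4⟩ := hy i
    simp only [PiLp.add_apply, PiLp.smul_apply, smul_eq_mul]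
    constructor
    · positivity
    · have := mul_le_mul_of_nonneg_left h2 ha
      have := mul_le_mul_of_nonneg_left h4 hb
      have : a * s + b * s = s := by rw [← add_mul, hab, one_mul]
      linarith
  have hbdd : Bornology.IsBounded {x : Plane | ∀ i, 0 ≤ x i ∧ x i ≤ s} := by
    rw [Metric.isBounded_iff_subset_closedBall (0 : Plane)]
    refine ⟨Real.sqrt (s ^ 2 + s ^ 2), ?_⟩
    intro x hx
    rw [Metric.mem_closedBall, dist_zero_right, EuclideanSpace.norm_eq, Fin.sum_univ_two]
    apply Real.sqrt_le_sqrt
    have h0 := hx 0
    have h1 := hx 1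
    rw [Real.norm_of_nonneg h0.1, Real.norm_of_nonneg h1.1]
    have := pow_le_pow_left₀ h0.1 h0.2 2
    have := pow_le_pow_left₀ h1.1 h1.2 2
    linarith
  constructor
  · have : (φ : Plane → Plane) = (φ.toRealAffineIsometryEquiv.toAffineEquiv.toAffineMap :
        Plane → Plane) := by
      ext x
      simp
    rw [this]
    exact hconv.affine_image _
  · exact φ.isometry.lipschitz.isBounded_image hbdd

/-- **Main result.** There are three finite measures on the plane, absolutely continuous with
respect to Lebesgue measure, such that no square contains exactly half of each of them; in fact no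
bounded convex set contains exactly half of both the first and the second one. -/
theorem result : ∃ μ : Fin 3 → Measure Plane,
    (∀ i, IsFiniteMeasure (μ i) ∧ μ i ≪ volume) ∧
    (∀ Q : Set Plane, IsSquare Q → ¬ ∀ i, μ i Q = μ i univ / 2) ∧
    (∀ T : Set Plane, Convex ℝ T → Bornology.IsBounded T →
      ¬ (μ 0 T = μ 0 univ / 2 ∧ μ 1 T = μ 1 univ / 2)) := by
  have := mu_finite
  refine ⟨![mu, nu, mu], ?_, ?_, ?_⟩
  · intro i
    fin_cases i
    · exact ⟨mu_finite, mu_ac⟩
    · refine ⟨⟨?_⟩, nu_ac⟩
      show nu univ < ⊤
      rw [nu_univ]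
      exact measure_lt_top _ _
    · exact ⟨mu_finite, mu_ac⟩
  · intro Q hQ h
    obtain ⟨hc, hb⟩ := square_convex_bounded hQ
    exact no_convex Q hc hb ⟨h 0, h 1⟩
  · intro T hc hb h
    exact no_convex T hc hb h

end Pool.Agent.Results.MP_3da004_co.NoHalvingSquare
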